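import Pool.Agent.helper75.WB.SpecI

/-!
# Project wb, row I.INA (numerics)
-/

set_option autoImplicit false

namespace Pool.Agent.WB

theorem big_helper64 (C e : ℝ) (he : 0 < e) : ∃ N₀ : ℕ, ∀ N : ℕ, N₀ ≤ N → C ≤ (N : ℝ) ^ e := by
  have h1 : Filter.Tendsto (fun N : ℕ => ((N : ℝ)) ^ e) Filter.atTop Filter.atTop :=
    (tendsto_rpow_atTop he).comp tendsto_natCast_atTop_atTop
  exact Filter.eventually_atTop.1 (h1.eventually_ge_atTop C)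

theorem INA (hIPR : IPR_stmt) : INA_stmt := by
  intro α ξ hα hα1 hξ h2ξ
  have hδ₁ : 0 < min ((1 - α) / 20) (ξ / 4) := lt_min (by linarith) (by linarith)
  refine ⟨min ((1 - α) / 20) (ξ / 4), hδ₁, ?_⟩
  intro δ hδ hδle
  have hδa : δ ≤ (1 - α) / 20 := hδle.trans (min_le_left _ _)
  have hδx : δ ≤ ξ / 4 := hδle.trans (min_le_right _ _)
  set κ : ℕ := ⌈1 / ξ⌉₊ with hκ
  have hκξ : 1 ≤ (κ : ℝ) * ξ := by
    have h1 : 1 / ξ ≤ (κ : ℝ) := Nat.le_ceil _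
    rwa [div_le_iff₀ hξ] at h1
  obtain ⟨N1, hN1⟩ := big_helper64 2 ((1 - α) / 4) (by linarith)
  obtain ⟨N2, hN2⟩ := big_helper64 5 ((1 - α) / 20) (by linarith)
  obtain ⟨N3, hN3⟩ := big_helper64 5 (1 + ξ) (by linarith)
  obtain ⟨N4, hN4⟩ := big_helper64 4 (δ / 2) (by linarith)
  obtain ⟨N5, hN5⟩ := big_helper64 (18 * κ) (2 * δ) (by linarith)
  obtain ⟨N6, hN6⟩ := hIPR.1 (2 * ξ) (by linarith) δ hδ
  refine ⟨κ, 2 + N1 + N2 + N3 + N4 + N5 + N6, ?_⟩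
  intro N hN
  have hNr : (2 : ℝ) ≤ (N : ℝ) := by
    have : 2 ≤ N := by omega
    exact_mod_cast this
  have hN0 : (0 : ℝ) < (N : ℝ) := by linarith
  have hNge1 : (1 : ℝ) ≤ (N : ℝ) := by linarith
  have hNgt1 : (1 : ℝ) < (N : ℝ) := by linarith
  have b1 := hN1 N (by omega)
  have b2 := hN2 N (by omega)
  have b3 := hN3 N (by omega)
  have b4 := hN4 N (by omega)
  have b5 := hN5 N (by omega)
  have b6 := hN6 N (by omega)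
  have mono : ∀ a b : ℝ, a ≤ b → (N : ℝ) ^ a ≤ (N : ℝ) ^ b := fun a b h =>
    Real.rpow_le_rpow_of_exponent_le hNge1 h
  have pos : ∀ a : ℝ, 0 < (N : ℝ) ^ a := fun a => Real.rpow_pos_of_pos hN0 a
  have hmul : ∀ a b : ℝ, (N : ℝ) ^ a * (N : ℝ) ^ b = (N : ℝ) ^ (a + b) := fun a b =>
    (Real.rpow_add hN0 a b).symm
  refine ⟨(N : ℝ) ^ (ξ - 3 * δ / 2), ?_, ?_, ?_, ?_, ?_, ?_, ?_, ?_, ?_, ?_⟩
  · exact Real.one_le_rpow hNge1 (by linarith)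
  · exact mono _ _ (by linarith)
  · exact Real.one_lt_rpow hNgt1 (by linarith)
  · calc 2 * (N : ℝ) ^ (2 * ξ) ≤ (N : ℝ) ^ ((1 - α) / 4) * (N : ℝ) ^ (2 * ξ) :=
          mul_le_mul_of_nonneg_right b1 (pos _).le
      _ = (N : ℝ) ^ ((1 - α) / 4 + 2 * ξ) := hmul _ _
      _ ≤ (N : ℝ) ^ α := mono _ _ (by linarith)
  · have h1 : ((N : ℝ) ^ (ξ + 2 * δ)) ^ 2 = (N : ℝ) ^ (2 * ξ + 4 * δ) := by
      rw [sq, hmul]
      congr 1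
      ring
    rw [h1]
    calc 4 * (N : ℝ) ^ (2 * ξ + 4 * δ) < 5 * (N : ℝ) ^ (2 * ξ + 4 * δ) :=
          mul_lt_mul_of_pos_right (by norm_num) (pos _)
      _ ≤ (N : ℝ) ^ ((1 - α) / 20) * (N : ℝ) ^ (2 * ξ + 4 * δ) :=
          mul_le_mul_of_nonneg_right b2 (pos _).le
      _ = (N : ℝ) ^ ((1 - α) / 20 + (2 * ξ + 4 * δ)) := hmul _ _
      _ ≤ (N : ℝ) ^ α := mono _ _ (by linarith)
  · have h1 : ((N : ℝ) ^ (2 * ξ)) ^ (κ + 1) = (N : ℝ) ^ (2 * ξ * ((κ : ℝ) + 1)) := by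
      rw [← Real.rpow_natCast, ← Real.rpow_mul hN0.le]
      push_cast
      rfl
    rw [h1]
    calc 4 * (N : ℝ) ^ (ξ - 3 * δ / 2) * (N : ℝ) ^ α
        = 4 * (N : ℝ) ^ (ξ - 3 * δ / 2 + α) := by rw [mul_assoc, hmul]
      _ < 5 * (N : ℝ) ^ (ξ - 3 * δ / 2 + α) := mul_lt_mul_of_pos_right (by norm_num) (pos _)
      _ ≤ (N : ℝ) ^ (1 + ξ) * (N : ℝ) ^ (ξ - 3 * δ / 2 + α) :=
          mul_le_mul_of_nonneg_right b3 (pos _).le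
      _ = (N : ℝ) ^ (1 + ξ + (ξ - 3 * δ / 2 + α)) := hmul _ _
      _ ≤ (N : ℝ) ^ (2 * ξ * ((κ : ℝ) + 1)) := by
          apply mono
          nlinarith
  · have h1 : 2 * (N : ℝ) ^ (2 * ξ) / (N : ℝ) ^ (ξ - 3 * δ / 2) =
        2 * (N : ℝ) ^ (ξ + 3 * δ / 2) := by
      rw [mul_div_assoc, ← Real.rpow_sub hN0]
      congr 2
      ring
    have h2 : Real.sqrt (2 * (N : ℝ) ^ (2 * ξ)) ≤ 2 * (N : ℝ) ^ (ξ + 3 * δ / 2) := by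
      have h3 : Real.sqrt (2 * (N : ℝ) ^ (2 * ξ)) ≤ 2 * (N : ℝ) ^ ξ := by
        rw [Real.sqrt_le_left (by positivity)]
        have h4 : (2 * (N : ℝ) ^ ξ) ^ 2 = 4 * (N : ℝ) ^ (2 * ξ) := by
          rw [mul_pow, sq ((N : ℝ) ^ ξ), hmul]
          norm_num
          ring_nf
        rw [h4]
        have := pos (2 * ξ)
        linarith
      have h5 := mono ξ (ξ + 3 * δ / 2) (by linarith)
      linarith
    rw [h1]
    calc 2 * (N : ℝ) ^ (ξ + 3 * δ / 2) + Real.sqrt (2 * (N : ℝ) ^ (2 * ξ))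
        ≤ 4 * (N : ℝ) ^ (ξ + 3 * δ / 2) := by linarith
      _ ≤ (N : ℝ) ^ (δ / 2) * (N : ℝ) ^ (ξ + 3 * δ / 2) :=
          mul_le_mul_of_nonneg_right b4 (pos _).le
      _ = (N : ℝ) ^ (δ / 2 + (ξ + 3 * δ / 2)) := hmul _ _
      _ ≤ (N : ℝ) ^ (ξ + 2 * δ) := mono _ _ (by linarith)
  · have h1 : 4 * (N : ℝ) ^ (ξ + 2 * δ) * (N : ℝ) ^ α / (N : ℝ) ^ (2 * ξ) =
        4 * (N : ℝ) ^ (α - ξ + 2 * δ) := by
      rw [mul_assoc, hmul, mul_div_assoc, ← Real.rpow_sub hN0]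
      congr 2
      ring
    rw [h1]
    have b4' : (4 : ℝ) ≤ (N : ℝ) ^ δ := b4.trans (mono _ _ (by linarith))
    calc 4 * (N : ℝ) ^ (α - ξ + 2 * δ) ≤ (N : ℝ) ^ δ * (N : ℝ) ^ (α - ξ + 2 * δ) :=
          mul_le_mul_of_nonneg_right b4' (pos _).le
      _ = (N : ℝ) ^ (δ + (α - ξ + 2 * δ)) := hmul _ _
      _ ≤ (N : ℝ) ^ (α - ξ + 3 * δ) := mono _ _ (by linarith)
  · exact Real.one_le_rpow hNge1 (by linarith)
  · refine le_trans ?_ b6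
    have hs1 : 1 ≤ (N : ℝ) ^ (ξ - 3 * δ / 2) := Real.one_le_rpow hNge1 (by linarith)
    have h1 : (2 * (N : ℝ) ^ (ξ - 3 * δ / 2) + 1) ^ 2 ≤ 9 * (N : ℝ) ^ (2 * ξ - 3 * δ) := by
      have h2 : (N : ℝ) ^ (2 * ξ - 3 * δ) =
          (N : ℝ) ^ (ξ - 3 * δ / 2) * (N : ℝ) ^ (ξ - 3 * δ / 2) := by
        rw [hmul]
        congr 1
        ring
      rw [h2]
      nlinarith
    have hκ0 : (0 : ℝ) ≤ (κ : ℝ) := Nat.cast_nonneg _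
    calc 2 * ((κ : ℝ) * (2 * (N : ℝ) ^ (ξ - 3 * δ / 2) + 1) ^ 2)
        ≤ 2 * ((κ : ℝ) * (9 * (N : ℝ) ^ (2 * ξ - 3 * δ))) := by
          apply mul_le_mul_of_nonneg_left _ (by norm_num)
          exact mul_le_mul_of_nonneg_left h1 hκ0
      _ = (18 * κ) * (N : ℝ) ^ (2 * ξ - 3 * δ) := by ring
      _ ≤ (N : ℝ) ^ (2 * δ) * (N : ℝ) ^ (2 * ξ - 3 * δ) :=
          mul_le_mul_of_nonneg_right b5 (pos _).le
      _ = (N : ℝ) ^ (2 * δ + (2 * ξ - 3 * δ)) := hmul _ _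
      _ ≤ (N : ℝ) ^ (2 * ξ - δ) := mono _ _ (by linarith)

end Pool.Agent.WB
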