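import Pool.Agent.helper78.WB.SpecIII

/-!
# Project wb, row PDH
-/

set_option autoImplicit false

namespace Pool.Agent.WB

open MvPolynomial

theorem PDH : PDH_stmt := by
  intro d p hp hd hdeg
  have hsup : ∀ m ∈ p.support, m 2 ≤ 1 := by
    intro m hm
    rw [← hdeg]
    exact monomial_le_degreeOf 2 hm
  have hcoeff : ∀ m : Fin 3 →₀ ℕ, coeff m (pderiv 2 p) ≠ 0 →
      coeff (m + Finsupp.single 2 1) p ≠ 0 := by
    intro m hm h0
    apply hm
    rw [coeff_pderiv, h0, zero_mul]
  refine ⟨?_, ?_, ?_⟩
  · have h1 : ∃ m ∈ p.support, m 2 = 1 := by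
      by_contra hcon
      push Not at hcon
      have : degreeOf 2 p ≤ 0 := by
        rw [degreeOf_le_iff]
        intro m hm
        have h2 := hsup m hm
        have h3 := hcon m hm
        omega
      omega
    obtain ⟨m, hm, hm1⟩ := h1
    have hm' : (m - Finsupp.single 2 1) + Finsupp.single 2 1 = m := by
      ext i
      by_cases hi : i = 2
      · subst hi
        simp [hm1]
      · simp [Finsupp.single_apply, Ne.symm hi]
    intro h0
    have h2 : coeff (m - Finsupp.single 2 1) (pderiv 2 p) = coeff m p := by
      rw [coeff_pderiv, hm']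
      simp [hm1]
    rw [h0, coeff_zero] at h2
    exact (mem_support_iff.1 hm) h2.symm
  · intro m hm
    have h1 := hp (hcoeff m hm)
    rw [map_add] at h1
    simp only [Finsupp.weight_single, Pi.one_apply, smul_eq_mul, mul_one] at h1
    omega
  · have : degreeOf 2 (pderiv 2 p) ≤ 0 := by
      rw [degreeOf_le_iff]
      intro m hm
      have h1 := hsup _ (mem_support_iff.2 (hcoeff m (mem_support_iff.1 hm)))
      simp at h1
      omega
    omega

end Pool.Agent.WB
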